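import Pool.Agent.Lib.MP_a57f33_nt.FL.Main
import Pool.Agent.Lib.MP_a57f33_nt.FL.P_rng

/-!
Every choice of elements of weights 3, 5, 7, … in `dm₀(ℚ)` with nonzero depth-one part generates a
free Lie algebra for the Ihara bracket, with the words in the blocks `x₀x₁`, `x₀x₀x₁` as a dual
basis; and if one choice generates `dm₀(ℚ)`, then every choice does.
-/

namespace Pool.Agent.Results.MP_a57f33_nt.FreeLifts

open Pool.Agent.MP_a57f33_nt Pool.Agent.MP_a57f33_nt.FL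

/-- Free lifts in `dm₀`. -/
theorem result :
    (∀ ψ : ℕ → QX, (∀ k, ψ k ∈ dm0) → (∀ k, IsHom (2 * k + 3) (ψ k)) →
      (∀ k, coeff (ψ k) (List.replicate (2 * k + 2) false ++ [true]) ≠ 0) →
      (∀ N : ℕ,
        LinearIndependent ℚ (fun (i : {i : List ℕ × ℕ // iwt i = N})
          (b : {b : List Bool // (hoff b).length = N}) => coeff (elt ψ i.1.1 i.1.2) (hoff b.1)) ∧
        Submodule.span ℚ (Set.range (fun (i : {i : List ℕ × ℕ // iwt i = N})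
          (b : {b : List Bool // (hoff b).length = N}) =>
            coeff (elt ψ i.1.1 i.1.2) (hoff b.1))) = ⊤) ∧
      ∃ L : LieN →ₗ[ℚ] QX, Function.Injective L ∧ Lifts ψ L) ∧
    ∀ (ψ ψ' : ℕ → QX) (L L' : LieN →ₗ[ℚ] QX), Lifts ψ L → Lifts ψ' L' →
      (∀ x ∈ dm0, ∃ P, L P = x) → ∀ x ∈ dm0, ∃ P, L' P = x := by
  refine ⟨?_, fun ψ ψ' L L' => p_rng ψ ψ' L L'⟩
  intro ψ h hh hc
  obtain ⟨h1, L, h2, h3, h4⟩ := fl_main ψ h hh hc
  exact ⟨h1, L, h2, ⟨h, hh, hc, h3, h4⟩⟩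

end Pool.Agent.Results.MP_a57f33_nt.FreeLifts
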