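import Pool.Agent.Lib.MP_a57f33_nt.PN.T.Eight

/-!
# The double shuffle relations imply the pentagon equation modulo depth 8
-/

namespace Pool.Agent.Results.MP_a57f33_nt.PentagonModDepth

open Pool.Agent.MP_a57f33_nt Pent

universe v

/-- Let `ψ ∈ dm₀(ℚ)` and `φ(x₀, x₁) = ψ(x₀, -x₁)`. For all elements `t i j` of an associative
`ℚ`-algebra which satisfy the infinitesimal braid relations on the four strands `0, 1, 2, 3`, and
for each strand `j ≠ 0`, the left side of the pentagon equation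
`φ(t₁₂,t₂₃) - φ(t₀₂+t₁₂,t₂₃) + φ(t₀₁+t₀₂,t₁₃+t₂₃) - φ(t₀₁,t₁₂+t₁₃) + φ(t₀₁,t₁₂)`
is a linear combination of products of the elements `t i j`, `i ≠ j`, with at least `8` factors
different from `t 0 j`. -/
theorem result : ∀ ψ ∈ dm0, ∀ (A : Type v) [Ring A] [Algebra ℚ A] (t : Fin 4 → Fin 4 → A),
    Braid t → ∀ j : Fin 4, j ≠ 0 → pent (sgn ψ) t ∈
      Submodule.span ℚ {x : A | ∃ l : List (Fin 4), j ∉ l ∧ 8 ≤ (l.filter (· ≠ 0)).length ∧
        x = (l.map fun i => t i j).prod} :=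
  trunc_eight

end Pool.Agent.Results.MP_a57f33_nt.PentagonModDepth
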