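import Pool.Agent.Lib.MP_a57f33_nt.RG.RProof

/-!
Connection coefficients of rigid local systems on the projective line minus three points are products of
Gamma series, for every solution of the regularised double shuffle relations.
-/

namespace Pool.Agent.Results.MP_a57f33_nt.RigidGamma

open Pool.Agent.MP_a57f33_nt Pool.Agent.MP_a57f33_nt.RigidGamma

/-- Let `A, B` be an irreducible rigid pair over an algebraically closed field `K` of characteristic
`0`, `e` and `f` nonzero vectors such that `K e` is the image of a polynomial in `A` and `K f` the image of a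
polynomial in the transpose of `B`. Then there are `α_i, β_i ∈ K` such that for every solution `Z` of
the regularised double shuffle relations, and also for its dual `w ↦ Z(τ w)`,
`(∑_w Z(w) (f w(A,-B) e) z^|w|) ∏ γ(β_i z) = (f e) ∏ γ(α_i z)`. For `ψ ∈ dm₀` one has
`∑_{|w| = N} (f w(A,-B) e) (ψ|w) = (f e) ((-1)^(N-1) / N) (ψ|x₀^(N-1) x₁) (∑ α_i^N - ∑ β_i^N)`. Eigenvectors for
simple eigenvalues are marked. -/
theorem result : (∀ (K : Type) [Field K] [IsAlgClosed K] [CharZero K] (n : ℕ)
    (A B : Matrix (Fin n) (Fin n) K), IrreducibleRigid A B →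
    ∀ e f : Fin n → K, Marked A e → Marked B.transpose f →
    ∃ α β : List K, α.length = β.length ∧ α.sum = β.sum ∧
      (∀ (k : Type) [CommRing k] [Algebra K k] (γ : ℕ → k) (Z : List Bool → k), Cyc.RegDS γ Z →
        conn A (-B) e f Z * (β.map (gam γ)).prod =
          PowerSeries.C (algebraMap K k (dotProduct f e)) * (α.map (gam γ)).prod ∧
        conn A (-B) e f (fun w => Z (dualWord w)) * (β.map (gam γ)).prod =
          PowerSeries.C (algebraMap K k (dotProduct f e)) * (α.map (gam γ)).prod) ∧
      ∀ ψ ∈ dm0, ∀ N : ℕ, 1 ≤ N →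
        ∑ w : Fin N → Bool, entry A (-B) e f (List.ofFn w) * ((coeff ψ (List.ofFn w) : ℚ) : K) =
          dotProduct f e * (((-1) ^ (N - 1) / (N : K)) *
            ((coeff ψ (List.replicate (N - 1) false ++ [true]) : ℚ) : K)) *
              ((α.map (· ^ N)).sum - (β.map (· ^ N)).sum)) ∧
    ∀ (K : Type) [Field K] (n : ℕ) (A : Matrix (Fin n) (Fin n) K) (e : Fin n → K) (x : K),
      e ≠ 0 → Matrix.mulVec A e = x • e → A.charpoly.rootMultiplicity x = 1 → Marked A e :=
  ⟨main, RG.gam_mkd⟩

end Pool.Agent.Results.MP_a57f33_nt.RigidGamma
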