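import Pool.Agent.Lib.MP_a57f33_nt.RT.Fin

/-!
Zagier's formula for `ζ(2, …, 2, 3, 2, …, 2)` follows from the regularised double shuffle
relations; in particular it holds, in its form modulo products (the Brown-Zagier relation), for
every element of `dm₀`.
-/

namespace Pool.Agent.Results.MP_a57f33_nt.ZagierFormula

open Pool.Agent.MP_a57f33_nt Pool.Agent.MP_a57f33_nt.Cyc

/-- The word `(x₀x₁)^j` (`false` is `x₀`, `true` is `x₁`). -/
def blocks (j : ℕ) : List Bool := (List.replicate j [false, true]).flatten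

/-- The coefficient `2 (-1)^r [C(2r, 2a+2) - (1 - 2^(-2r)) C(2r, 2b+1)]`. -/
def co (r a b : ℕ) : ℚ :=
  2 * (-1) ^ r * ((Nat.choose (2 * r) (2 * a + 2) : ℚ) -
    (1 - 1 / 2 ^ (2 * r)) * (Nat.choose (2 * r) (2 * b + 1) : ℚ))

/-- Let `Z` be a function on the words in `x₀, x₁` with values in a commutative `ℚ`-algebra which
satisfies the regularised double shuffle relations, and `n = a + b + 1`. Then
`Z((x₀x₁)^b x₀x₀x₁ (x₀x₁)^a) = ∑_{1 ≤ r ≤ n} co(r,a,b) Z(x₀^(2r) x₁) Z((x₀x₁)^(n-r))`. For
`ψ ∈ dm₀` one has `(ψ | (x₀x₁)^b x₀x₀x₁ (x₀x₁)^a) = co(n,a,b) (ψ | x₀^(2n) x₁)`. -/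
theorem result :
    (∀ (k : Type) [CommRing k] [Algebra ℚ k] (γ : ℕ → k) (Z : List Bool → k), RegDS γ Z →
      ∀ a b : ℕ, Z (blocks b ++ [false, false, true] ++ blocks a) =
        ∑ r ∈ Finset.Icc 1 (a + b + 1),
          co r a b • (Z (List.replicate (2 * r) false ++ [true]) * Z (blocks (a + b + 1 - r)))) ∧
    ∀ ψ ∈ dm0, ∀ a b : ℕ, coeff ψ (blocks b ++ [false, false, true] ++ blocks a) =
      co (a + b + 1) a b * coeff ψ (List.replicate (2 * (a + b + 1)) false ++ [true]) := by
  have e : ∀ a b : ℕ, BZ.hw a b = blocks b ++ [false, false, true] ++ blocks a := by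
    intro a b
    have e1 : BZ.bl (a + 1) = [false, true] ++ blocks a := by
      unfold BZ.bl blocks
      rw [List.replicate_succ, List.flatten_cons]
    unfold BZ.hw
    rw [e1]
    simp [BZ.bl, blocks]
  constructor
  · intro k _ _ γ Z h a b
    have h1 := RT.zagier a b γ Z h
    unfold GZ.FF at h1
    rw [sub_eq_zero] at h1
    rw [← e, h1]
    refine Finset.sum_nbij' (fun r => r + 1) (fun r => r - 1) ?_ ?_ ?_ ?_ ?_
    · intro r hr
      rw [Finset.mem_range] at hr
      rw [Finset.mem_Icc]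
      omega
    · intro r hr
      rw [Finset.mem_Icc] at hr
      rw [Finset.mem_range]
      omega
    · intro r _
      simp
    · intro r hr
      rw [Finset.mem_Icc] at hr
      omega
    · intro r _
      have e2 : a + b + 1 - (r + 1) = a + b - r := by omega
      have e3 : blocks (a + b - r) = BZ.alt false (2 * (a + b - r)) := BZ.bl_eq _
      rw [e2, e3]
      rfl
  · intro ψ h a b
    rw [← e]
    exact BZ.brown_zagier h a b

end Pool.Agent.Results.MP_a57f33_nt.ZagierFormula
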